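import Pool.Agent.H82.NS.Fin3

/-!
# Siegel's theorem in full: one unknown number for each real number field

There are natural numbers `M_n(K)` (`n ≥ 0`, `K` a subfield of `ℝ`) with the following two properties. `H ≥ 2` bounds
the absolute values of the coefficients, `m = max(|x|,|y|)`.

(A) Let `n ≥ 3`, let `k` be a number field of degree at least three and `G ∈ ℤ[x,y]` of total degree at most `n`,
irreducible over `ℚ`, such that all points at infinity of the curve `G = 0` with real residue field carry `k`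
(`AtInf k G`). Every integer point of `G = 0` has `m ≤ H^(2^((2n²)!))`, or `M_n(K) ≤ m ≤ M_n(K)^(14000 n⁸)` for a
subfield `K` of `ℝ` isomorphic to `k`.

(B) For every `n` there is `D ≥ n`, `D ≥ 3`: let `F ∈ ℤ[x,y]` be of total degree at most `n`, without non-constant
zeros in `ℚ̄[s,1/s]` (`Scope F`: for an irreducible curve this is exactly the hypothesis of Siegel's theorem). Every
integer point `(x,y)` of `F = 0` has `m ≤ H^(D 2^((2D²)!))`, or there is a number field `K ⊂ ℝ` of degree at least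
three and at most `D`, of discriminant at most `H^D`, such that `(x,y)` lifts to a curve as in (A) for `K`: there are
`G` of degree at most `D` with coefficients at most `H^D` and `AtInf K G`, `0 ≤ c ≤ D` and an integer `w` with
`G(x + c y, w) = 0`, where `m, |w| ≤ |x + c y|^D`, and `M_D(K) ≤ m^D` and `m ≤ M_D(K)^(14000 D⁹)`.
-/

namespace Pool.Agent.Results.MP_821da1_nt.AllOfSiegel

/-- the hypothesis of Siegel's theorem: every solution of `F = 0` in `ℚ̄[s, 1/s]` is constant -/
def Scope (F : MvPolynomial (Fin 2) ℤ) : Prop :=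
  ∀ X Y : LaurentPolynomial (AlgebraicClosure ℚ),
    MvPolynomial.eval₂ (Int.castRingHom (LaurentPolynomial (AlgebraicClosure ℚ))) ![X, Y] F = 0 →
      ∃ a b : AlgebraicClosure ℚ, X = LaurentPolynomial.C a ∧ Y = LaurentPolynomial.C b

/-- `G` is irreducible over `ℚ`, and all points at infinity of `G = 0` with real residue field carry `k`: for every
number field `L` with a real embedding and all `X, Y` in `L((t))` with `G(X, Y) = 0`, either `X, Y` are in `L[[t]]` or
`k` embeds in `L` -/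
def AtInf (k : Type) [Field k] (G : MvPolynomial (Fin 2) ℤ) : Prop :=
  Irreducible (MvPolynomial.map (Int.castRingHom ℚ) G) ∧
    ∀ (L : Type) [Field L] [NumberField L], Nonempty (L →+* ℝ) → ∀ X Y : LaurentSeries L,
      MvPolynomial.eval₂ (Int.castRingHom (LaurentSeries L)) ![X, Y] G = 0 →
        (X ∈ (HahnSeries.ofPowerSeries ℤ L).range ∧ Y ∈ (HahnSeries.ofPowerSeries ℤ L).range) ∨
          Nonempty (k →+* L)

/-- **Siegel's theorem, with one unknown number for each real number field.** -/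
theorem result : ∃ M : ℕ → Subfield ℝ → ℕ,
    (∀ n : ℕ, 3 ≤ n → ∀ (k : Type) [Field k] [NumberField k], 3 ≤ Module.finrank ℚ k →
      ∀ (G : MvPolynomial (Fin 2) ℤ) (H : ℕ), G.totalDegree ≤ n → AtInf k G → 2 ≤ H →
        (∀ m, |MvPolynomial.coeff m G| ≤ (H : ℤ)) → ∀ x y : ℤ, MvPolynomial.eval ![x, y] G = 0 →
          max |x| |y| ≤ (H : ℤ) ^ 2 ^ (2 * n ^ 2).factorial ∨
            ∃ K : Subfield ℝ, Nonempty (k ≃+* K) ∧ (M n K : ℤ) ≤ max |x| |y| ∧
              max |x| |y| ≤ (M n K : ℤ) ^ (14000 * n ^ 8)) ∧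
    ∀ n : ℕ, ∃ D : ℕ, n ≤ D ∧ 3 ≤ D ∧ ∀ (F : MvPolynomial (Fin 2) ℤ) (H : ℕ), F.totalDegree ≤ n →
      Scope F → 2 ≤ H → (∀ m, |MvPolynomial.coeff m F| ≤ (H : ℤ)) →
      ∀ x y : ℤ, MvPolynomial.eval ![x, y] F = 0 →
        max |x| |y| ≤ (H : ℤ) ^ (D * 2 ^ (2 * D ^ 2).factorial) ∨
          ∃ (K : Subfield ℝ) (_ : NumberField K) (G : MvPolynomial (Fin 2) ℤ) (c : ℕ) (w : ℤ),
            3 ≤ Module.finrank ℚ K ∧ Module.finrank ℚ K ≤ D ∧ |NumberField.discr K| ≤ (H : ℤ) ^ D ∧
            G.totalDegree ≤ D ∧ AtInf K G ∧ (∀ m, |MvPolynomial.coeff m G| ≤ (H : ℤ) ^ D) ∧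
            c ≤ D ∧ MvPolynomial.eval ![x + c * y, w] G = 0 ∧
            max |x| |y| ≤ |x + c * y| ^ D ∧ |w| ≤ |x + c * y| ^ D ∧
            (M D K : ℤ) ≤ max |x| |y| ^ D ∧ max |x| |y| ≤ (M D K : ℤ) ^ (14000 * D ^ 9) :=
  Pool.Agent.H82.NS.siegel3

end Pool.Agent.Results.MP_821da1_nt.AllOfSiegel
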