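import Pool.Agent.H97.FC.GDX

/-!
# The effective Siegel theorem for 100 per cent of the fields of every one-parameter family

Let `N, d ≥ 3`, `m ≥ 1`. There are a number `C` and a set `GG` of integer polynomials, all of them
irreducible over `ℚ`, with the following properties.

* The effective Siegel theorem holds for the curves whose real points at infinity carry members of
  `GG`: if `F ∈ ℤ[x,y]` is irreducible over `ℚ`, of total degree at most `d`, with coefficients at
  most `H` in absolute value, and every point at infinity of the curve `F = 0` with real residue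
  field carries a root of some member of `GG` with coefficients at most `G` in absolute value, then
  all integer points of the curve satisfy `max(|x|,|y|) ≤ (G H)^C`.
* `GG` contains 100 per cent of the fibres of every one-parameter family: let `f ∈ ℤ[t][Z]` be
  absolutely irreducible, of degree between `3` and `N` in `Z` and at most `m` in `t`; if the
  coefficients of `f` are at most `B ≥ 2` in absolute value and `X ≥ B^C`, then `f(a,Z) ∈ GG` for all
  but at most `C` of the integers `a` in `[X, X + X^(1/C)]`; and `f(a,Z) ∈ GG` for all but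
  `O(T^(1-1/C))` of the integers `1 ≤ a ≤ T`.
-/

namespace Pool.Agent.Results.MP_821da1_nt.Families

open Polynomial

/-- the fibre `f(a, Z)` -/
noncomputable def fiber (f : ℤ[X][X]) (a : ℕ) : ℤ[X] := f.map (evalRingHom (a : ℤ))

/-- all points at infinity of the curve `F = 0` with real residue field carry a root of a member of
`S`: for every number field `K` with a real embedding and all `X, Y` in `K((t))` with `F(X,Y) = 0`,
either `X, Y` are in `K[[t]]` or `K` contains a root of a member of `S` -/
def Carries (S : Set ℤ[X]) (F : MvPolynomial (Fin 2) ℤ) : Prop :=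
  ∀ (K : Type) [Field K] [NumberField K], Nonempty (K →+* ℝ) → ∀ X Y : LaurentSeries K,
    MvPolynomial.eval₂ (Int.castRingHom (LaurentSeries K)) ![X, Y] F = 0 →
    (X ∈ (HahnSeries.ofPowerSeries ℤ K).range ∧ Y ∈ (HahnSeries.ofPowerSeries ℤ K).range) ∨
      ∃ g ∈ S, ∃ θ : K, aeval θ g = 0

/-- **Families.** The effective Siegel theorem with a polynomial bound for all curves whose real
points at infinity carry members of a set `GG` of polynomials; `GG` contains 100 per cent of the
fibres of every one-parameter family of degree at least `3`. -/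
theorem result (N m d : ℕ) (hN : 3 ≤ N) (hm : 1 ≤ m) (hd : 3 ≤ d) :
    ∃ (C : ℕ) (GG : Set ℤ[X]), 2 ≤ C ∧
    (∀ g ∈ GG, Irreducible (g.map (Int.castRingHom ℚ))) ∧
    (∀ F : MvPolynomial (Fin 2) ℤ, Irreducible (MvPolynomial.map (Int.castRingHom ℚ) F) →
      F.totalDegree ≤ d → ∀ G H : ℕ, 2 ≤ G → 2 ≤ H →
      Carries {g | g ∈ GG ∧ ∀ i, |g.coeff i| ≤ (G : ℤ)} F → (∀ e, |F.coeff e| ≤ (H : ℤ)) →
      ∀ x y : ℤ, MvPolynomial.eval ![x, y] F = 0 → max |x| |y| ≤ (((G * H) ^ C : ℕ) : ℤ)) ∧
    ∀ f : ℤ[X][X], 3 ≤ f.natDegree → f.natDegree ≤ N → (∀ i, (f.coeff i).natDegree ≤ m) →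
      Irreducible (f.map (mapRingHom (Int.castRingHom ℂ))) →
      (∀ B X0 : ℕ, 2 ≤ B → (∀ i j, |(f.coeff i).coeff j| ≤ (B : ℤ)) → B ^ C ≤ X0 →
        {a : ℕ | X0 ≤ a ∧ (a - X0) ^ C ≤ X0 ∧ fiber f a ∉ GG}.encard ≤ C) ∧
      ∃ K : ℝ, ∀ T : ℕ, 1 ≤ T →
        ((Set.Icc 1 T ∩ {a | fiber f a ∉ GG}).ncard : ℝ) ≤
          K * (T : ℝ) ^ (1 - 1 / (C : ℝ)) := by
  obtain ⟨C, GG, hC, h0, h1, h2⟩ := Pool.Agent.H97.FC.families_good N m d hN hm hd
  refine ⟨C, GG, hC, h0, ?_, h2⟩
  intro F hF hFd G H hG hH hS hFH x y hxy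
  have hz : Pool.Agent.H34.AC.vl F x y = 0 := by
    unfold Pool.Agent.H34.AC.vl
    rw [← hxy, MvPolynomial.eval, MvPolynomial.coe_eval₂Hom]
    congr 1
  have h7 := h1 F hF hFd G hG hS H hH hFH x y hz
  rw [Int.abs_eq_natAbs, Int.abs_eq_natAbs]
  exact_mod_cast h7

end Pool.Agent.Results.MP_821da1_nt.Families
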