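import Pool.Agent.H8.KW.WinR

/-!
# Siegel's theorem for all curves over a number field, up to one window for each real conjugate

Let `n ≥ 4` and let `k` be a number field of degree at least three. There is a set `S` of at most
as many natural numbers as `ℝ` has subfields isomorphic to `k`, with the following property. Let `F` in
`ℤ[x,y]` have degree `n`, let its leading form `F_n` be irreducible over `ℚ`, and let its root field
`ℚ[z]/(F_n(1,z))` contain a copy of `k`. Let `H ≥ 2` bound the absolute values of all coefficients of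
`F`. Then every integer point `(x,y)` of `F = 0` satisfies `max(|x|,|y|) ≤ H^(10^7 n^8)`, or
`M ≤ max(|x|,|y|) ≤ M^(4000 n^4)` for some `M` in `S`.
-/

namespace Pool.Agent.H8.Old.FieldWindows

open MvPolynomial

/-- All integer points above the explicit polynomial bound, on all curves whose root field contains
`k`, lie in at most as many windows `[M, M^(4000 n^4)]` as `ℝ` has subfields isomorphic to `k`. -/
theorem result (n : ℕ) (hn : 4 ≤ n) (k : Type) [Field k] [NumberField k]
    (hk : 3 ≤ Module.finrank ℚ k) :
    ∃ S : Finset ℕ, S.card ≤ Set.ncard {K : Subfield ℝ | Nonempty (k ≃+* K)} ∧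
      ∀ (F : MvPolynomial (Fin 2) ℤ) (H : ℕ), F.totalDegree ≤ n →
        Irreducible (map (Int.castRingHom ℚ) (homogeneousComponent n F)) →
        Nonempty (k →+* AdjoinRoot
          (aeval ![(1 : Polynomial ℚ), Polynomial.X] (homogeneousComponent n F))) →
        2 ≤ H → (∀ m, |coeff m F| ≤ (H : ℤ)) →
        ∀ x y : ℤ, eval ![x, y] F = 0 →
          max |x| |y| ≤ (H : ℤ) ^ (10 ^ 7 * n ^ 8) ∨
            ∃ M ∈ S, (M : ℤ) ≤ max |x| |y| ∧ max |x| |y| ≤ (M : ℤ) ^ (4000 * n ^ 4) :=
  Pool.Agent.H8.KF.windowsK hn k hk

end Pool.Agent.H8.Old.FieldWindows
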