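import Pool.Agent.H8.EF.Final

/-!
# An effective Siegel theorem for plane curves with a point of high multiplicity

Let `K` be a number field of degree `n` with an anchored element: `α` in its ring of integers and a
real embedding `φ` with `|φ(α) - m| m^(n-1) ≤ A`, while every other embedding of `K` is not real and
maps `α` to a number of absolute value at most `A`; `m ≥ (16 A)^(8 n)`. Let `j ≥ 2` and
`n ≥ 64 j^7`. For every `F = F_n + F_(n-1) + ... + F_(n-j)` in `ℤ[x,y]` with `F_(n-1) ≠ 0` whose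
leading form `F_n` is irreducible over `ℚ` and has a root in `K` (`F_n(1,θ) = 0`), all integer
points `(x,y)` of `F = 0` satisfy `max(|x|,|y|) ≤ (m H(F))^(15 n^7)`.

The second part says that the class is not empty: for odd `n ≥ 3` and `m ≥ 3` the polynomial
`X^n - m X^(n-1) - 1` is irreducible, and the field generated by a root is of this kind with `A = 1`.
-/

namespace Pool.Agent.Results.MP_821da1_nt.HighMultiplicity

open MvPolynomial NumberField

/-- Effective bound for the integer points of all plane curves of degree `n` with an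
`(n-j)`-fold point at the origin, `64 j^7 ≤ n`, whose leading form has a root in an anchored
number field of degree `n`. -/
theorem result :
    (∀ (K : Type) [Field K] [NumberField K] (j n m H : ℕ) (A : ℝ) (α : 𝓞 K) (φ : K →+* ℝ) (θ : K)
      (F : MvPolynomial (Fin 2) ℤ),
      2 ≤ j → 64 * j ^ 7 ≤ n → Module.finrank ℚ K = n → 1 ≤ A → (16 * A) ^ (8 * n) ≤ m →
      |φ (α : K) - m| * (m : ℝ) ^ (n - 1) ≤ A →
      (∀ σ : K →+* ℂ, σ ≠ Complex.ofRealHom.comp φ → ‖σ (α : K)‖ ≤ A ∧ ∃ x, (σ x).im ≠ 0) →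
      F.totalDegree ≤ n → (∀ i < n - j, homogeneousComponent i F = 0) →
      homogeneousComponent (n - 1) F ≠ 0 →
      Irreducible (map (Int.castRingHom ℚ) (homogeneousComponent n F)) →
      aeval ![1, θ] (homogeneousComponent n F) = 0 → (∀ s, |coeff s F| ≤ (H : ℤ)) →
      ∀ x y : ℤ, eval ![x, y] F = 0 → max |x| |y| ≤ ((m * H : ℕ) : ℤ) ^ (15 * n ^ 7)) ∧
    (∀ n m : ℕ, Odd n → 3 ≤ n → 3 ≤ m →
      Irreducible (Polynomial.X ^ n - Polynomial.C (m : ℚ) * Polynomial.X ^ (n - 1) - 1) ∧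
      ∀ (K : Type) [Field K] [NumberField K], Module.finrank ℚ K = n →
        ∀ β : K, β ^ n - m * β ^ (n - 1) - 1 = 0 →
          ∃ (α : 𝓞 K) (φ : K →+* ℝ), |φ (α : K) - m| * (m : ℝ) ^ (n - 1) ≤ 1 ∧
            ∀ σ : K →+* ℂ, σ ≠ Complex.ofRealHom.comp φ → ‖σ (α : K)‖ ≤ 1 ∧ ∃ x, (σ x).im ≠ 0) := by
  refine ⟨?_, ?_⟩
  · intro K _ _ j n m H A α φ θ F hj hn hK hA hm hα hσ hdeg hlow hsub hirr hθ hH x y h0
    refine Pool.Agent.H8.EF.effective K m A hA ⟨α, φ, ?_, hσ⟩ j n hj hn hK hm F hdeg hlow hsub hirr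
      θ hθ H hH x y h0
    rw [hK]
    exact hα
  · intro n m hodd hn hm
    refine ⟨Pool.Agent.H8.EF.pm_irreducible n m hodd hn hm, ?_⟩
    intro K _ _ hK β hβ
    obtain ⟨α, φ, h1, h2⟩ := Pool.Agent.H8.EF.pm_anchored n m hodd hn hm K hK β hβ
    rw [hK] at h1
    exact ⟨α, φ, h1, h2⟩

end Pool.Agent.Results.MP_821da1_nt.HighMultiplicity
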