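import Pool.Agent.H8.NoPt.Final

/-!
# Almost all plane curves of degree at least 4 have no integer point

For `n ≥ 4` the proportion, among the polynomials `F` in `ℤ[x,y]` of total degree at most `n` with
all coefficients in `[-H, H]`, of those with an integer zero is `O(H^(-1/4))`.
-/

namespace Pool.Agent.Results.MP_821da1_nt.NoIntegerPoint

open Pool.Agent.H8.NoPt

/-- For every `n ≥ 4` there is a constant `C` such that for every `H ≥ 1` the proportion of
polynomials with an integer zero, among the polynomials of total degree at most `n` with integer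
coefficients bounded by `H`, is at most `C H^(-1/4)`. -/
theorem result (n : ℕ) (hn : 4 ≤ n) : ∃ C : ℝ, ∀ H : ℕ, 1 ≤ H →
    (({F : MvPolynomial (Fin 2) ℤ | F.totalDegree ≤ n ∧ (∀ m, |F.coeff m| ≤ (H : ℤ)) ∧
        ∃ x y : ℤ, MvPolynomial.eval ![x, y] F = 0}.ncard : ℕ) : ℝ) ≤
      C * (H : ℝ) ^ (-(1 / 4 : ℝ)) *
        (({F : MvPolynomial (Fin 2) ℤ | F.totalDegree ≤ n ∧
          ∀ m, |F.coeff m| ≤ (H : ℤ)}.ncard : ℕ) : ℝ) := by
  obtain ⟨C, hC⟩ := almost_all n hn
  refine ⟨C, fun H hH => ?_⟩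
  have h := hC H hH
  have e : {F ∈ PolyBox n H | ∃ x y : ℤ, MvPolynomial.eval ![x, y] F = 0} =
      {F : MvPolynomial (Fin 2) ℤ | F.totalDegree ≤ n ∧ (∀ m, |F.coeff m| ≤ (H : ℤ)) ∧
        ∃ x y : ℤ, MvPolynomial.eval ![x, y] F = 0} := by
    ext F
    simp only [PolyBox, Set.mem_ofPred_eq]
    tauto
  rw [e] at h
  exact h

end Pool.Agent.Results.MP_821da1_nt.NoIntegerPoint
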