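import Pool.Agent.H15.SC.Rrun
import Pool.Agent.H15.SC.Tail
import Pool.Agent.H15.SC.Vol

/-!
# How many plane curves of degree `n ≥ 5` have an integer point?

Ordered by height, the number of plane curves of degree at most `n` with coefficients in
`[-H, H]` and at least one integer point is `κ K^(N-1) + O(K^(N-1) H^(-1/100))`, where
`K = 2H + 1`, `N = (n+1)(n+2)/2` is the number of coefficients and `κ > 0` is an explicit sum of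
volumes over all integer points of the plane; only `O(K^(N-1) H^(-1/100))` of them have more than
one integer point, and only `O(K^(N-1) (T^(2-n) + H^(-1/100)))` have an integer point `(x, y)` with
`max(|x|, |y|) > T`.
-/

namespace Pool.Agent.Results.MP_821da1_nt.SharpCount

open Pool.Agent.H8.NoPt Pool.Agent.H15.SC

theorem result (n : ℕ) (hn : 5 ≤ n) : ∃ κ C : ℝ, 0 < κ ∧
    HasSum (fun P : ℤ × ℤ => MeasureTheory.volume.real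
      {u : {i : Fin (n + 1) × Fin (n + 1) // 0 < (i.1 : ℕ) + i.2 ∧ (i.1 : ℕ) + i.2 ≤ n} → ℝ |
        (∀ i, |u i| ≤ 1) ∧
        |∑ i, u i * ((P.1 : ℝ) ^ (i.1.1 : ℕ) * (P.2 : ℝ) ^ (i.1.2 : ℕ))| ≤ 1} /
      2 ^ ((n + 1) * (n + 2) / 2 - 1)) κ ∧
    ∀ H : ℕ, 1 ≤ H →
      |(({F : MvPolynomial (Fin 2) ℤ | F.totalDegree ≤ n ∧ (∀ m, |F.coeff m| ≤ (H : ℤ)) ∧
          ∃ P : ℤ × ℤ, MvPolynomial.eval ![P.1, P.2] F = 0}.ncard : ℕ) : ℝ) -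
        κ * (2 * H + 1 : ℝ) ^ ((n + 1) * (n + 2) / 2 - 1)| ≤
        C * (H : ℝ) ^ (-(1 / 100 : ℝ)) * (2 * H + 1 : ℝ) ^ ((n + 1) * (n + 2) / 2 - 1) ∧
      (({F : MvPolynomial (Fin 2) ℤ | F.totalDegree ≤ n ∧ (∀ m, |F.coeff m| ≤ (H : ℤ)) ∧
          ∃ P Q : ℤ × ℤ, P ≠ Q ∧ MvPolynomial.eval ![P.1, P.2] F = 0 ∧
            MvPolynomial.eval ![Q.1, Q.2] F = 0}.ncard : ℕ) : ℝ) ≤
        C * (H : ℝ) ^ (-(1 / 100 : ℝ)) * (2 * H + 1 : ℝ) ^ ((n + 1) * (n + 2) / 2 - 1) ∧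
      ∀ T : ℕ, 1 ≤ T →
        (({F : MvPolynomial (Fin 2) ℤ | F.totalDegree ≤ n ∧ (∀ m, |F.coeff m| ≤ (H : ℤ)) ∧
            ∃ P : ℤ × ℤ, (T : ℤ) < max |P.1| |P.2| ∧
              MvPolynomial.eval ![P.1, P.2] F = 0}.ncard : ℕ) : ℝ) ≤
          C * (1 / (T : ℝ) ^ (n - 2) + (H : ℝ) ^ (-(1 / 100 : ℝ))) *
            (2 * H + 1 : ℝ) ^ ((n + 1) * (n + 2) / 2 - 1) := by
  classical
  obtain ⟨C1, hC1⟩ := vec_all n hn (runge_of n hn)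
  obtain ⟨C2, hC2, hC3⟩ := vec_tail n hn (runge_of n hn)
  obtain ⟨C, hCa, hCb⟩ : ∃ C : ℝ, C1 ≤ C ∧ C2 ≤ C := ⟨max C1 C2, le_max_left _ _, le_max_right _ _⟩
  have hC : ∀ H : ℕ, 1 ≤ H →
      |(((Box n H).filter fun a => ∃ P : ℤ × ℤ,
          Pool.Agent.H72.ES.ev n (arr a) P.1 P.2 = 0).card : ℝ) -
        kaps n * (2 * H + 1 : ℝ) ^ (Fintype.card (Ix n) - 1)| ≤
        C * (H : ℝ) ^ (-(1 / 100 : ℝ)) * (2 * H + 1 : ℝ) ^ (Fintype.card (Ix n) - 1) ∧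
      (((Box n H).filter fun a => ∃ P Q : ℤ × ℤ, P ≠ Q ∧
        Pool.Agent.H72.ES.ev n (arr a) P.1 P.2 = 0 ∧
        Pool.Agent.H72.ES.ev n (arr a) Q.1 Q.2 = 0).card : ℝ) ≤
        C * (H : ℝ) ^ (-(1 / 100 : ℝ)) * (2 * H + 1 : ℝ) ^ (Fintype.card (Ix n) - 1) := by
    intro H hH
    have hle : C1 * (H : ℝ) ^ (-(1 / 100 : ℝ)) * (2 * H + 1 : ℝ) ^ (Fintype.card (Ix n) - 1) ≤
        C * (H : ℝ) ^ (-(1 / 100 : ℝ)) * (2 * H + 1 : ℝ) ^ (Fintype.card (Ix n) - 1) :=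
      mul_le_mul_of_nonneg_right (mul_le_mul_of_nonneg_right hCa (by positivity)) (by positivity)
    exact ⟨(hC1 H hH).1.trans hle, (hC1 H hH).2.trans hle⟩
  refine ⟨kaps n, C, kaps_pos n (by omega), ?_, fun H hH => ?_⟩
  · have h1 : HasSum (fun P : ℤ × ℤ => kap n P) (kaps n) :=
      (kaps_summable n (by omega)).hasSum
    have h2 : (fun P : ℤ × ℤ => kap n P) = fun P : ℤ × ℤ => MeasureTheory.volume.real
        (Om n P) / 2 ^ ((n + 1) * (n + 2) / 2 - 1) := by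
      funext P
      rw [kap_vol n (by omega) P, card_Nc, card_ix]
    rw [h2] at h1
    exact h1
  · have h := hC H hH
    rw [card_ix] at h
    have e1 : {F : MvPolynomial (Fin 2) ℤ | F.totalDegree ≤ n ∧
        (∀ m, |F.coeff m| ≤ (H : ℤ)) ∧
        ∃ P : ℤ × ℤ, MvPolynomial.eval ![P.1, P.2] F = 0} =
        {F : MvPolynomial (Fin 2) ℤ | (F.totalDegree ≤ n ∧ ∀ m, |F.coeff m| ≤ (H : ℤ)) ∧
          (fun a : Ix n → ℤ => ∃ P : ℤ × ℤ, Pool.Agent.H72.ES.ev n (arr a) P.1 P.2 = 0)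
            (toVec n F)} := by
      ext F
      constructor
      · rintro ⟨h1, h2, P, h3⟩
        exact ⟨⟨h1, h2⟩, P, by rw [← eval_toVec n h1]; exact h3⟩
      · rintro ⟨⟨h1, h2⟩, P, h3⟩
        exact ⟨h1, h2, P, by rw [eval_toVec n h1]; exact h3⟩
    have e2 : {F : MvPolynomial (Fin 2) ℤ | F.totalDegree ≤ n ∧
        (∀ m, |F.coeff m| ≤ (H : ℤ)) ∧
          ∃ P Q : ℤ × ℤ, P ≠ Q ∧ MvPolynomial.eval ![P.1, P.2] F = 0 ∧
            MvPolynomial.eval ![Q.1, Q.2] F = 0} =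
        {F : MvPolynomial (Fin 2) ℤ | (F.totalDegree ≤ n ∧ ∀ m, |F.coeff m| ≤ (H : ℤ)) ∧
          (fun a : Ix n → ℤ => ∃ P Q : ℤ × ℤ, P ≠ Q ∧
            Pool.Agent.H72.ES.ev n (arr a) P.1 P.2 = 0 ∧
            Pool.Agent.H72.ES.ev n (arr a) Q.1 Q.2 = 0) (toVec n F)} := by
      ext F
      constructor
      · rintro ⟨h1, h2, P, Q, h3, h4, h5⟩
        exact ⟨⟨h1, h2⟩, P, Q, h3, by rw [← eval_toVec n h1]; exact h4,
          by rw [← eval_toVec n h1]; exact h5⟩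
      · rintro ⟨⟨h1, h2⟩, P, Q, h3, h4, h5⟩
        exact ⟨h1, h2, P, Q, h3, by rw [eval_toVec n h1]; exact h4,
          by rw [eval_toVec n h1]; exact h5⟩
    have b1 := box_ncard n H (fun a : Ix n → ℤ => ∃ P : ℤ × ℤ,
      Pool.Agent.H72.ES.ev n (arr a) P.1 P.2 = 0)
    have b2 := box_ncard n H (fun a : Ix n → ℤ => ∃ P Q : ℤ × ℤ, P ≠ Q ∧
      Pool.Agent.H72.ES.ev n (arr a) P.1 P.2 = 0 ∧ Pool.Agent.H72.ES.ev n (arr a) Q.1 Q.2 = 0)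
    rw [← b1, ← b2] at h
    rw [e1, e2]
    refine ⟨h.1, h.2, fun T hT => ?_⟩
    have h3 := hC3 H T hH hT
    rw [card_ix] at h3
    have e3 : {F : MvPolynomial (Fin 2) ℤ | F.totalDegree ≤ n ∧
        (∀ m, |F.coeff m| ≤ (H : ℤ)) ∧
        ∃ P : ℤ × ℤ, (T : ℤ) < max |P.1| |P.2| ∧ MvPolynomial.eval ![P.1, P.2] F = 0} =
        {F : MvPolynomial (Fin 2) ℤ | (F.totalDegree ≤ n ∧ ∀ m, |F.coeff m| ≤ (H : ℤ)) ∧
          (fun a : Ix n → ℤ => ∃ P : ℤ × ℤ, (T : ℤ) < msz P ∧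
            Pool.Agent.H72.ES.ev n (arr a) P.1 P.2 = 0) (toVec n F)} := by
      ext F
      constructor
      · rintro ⟨h1, h2, P, h3, h4⟩
        exact ⟨⟨h1, h2⟩, P, h3, by rw [← eval_toVec n h1]; exact h4⟩
      · rintro ⟨⟨h1, h2⟩, P, h3, h4⟩
        exact ⟨h1, h2, P, h3, by rw [eval_toVec n h1]; exact h4⟩
    have b3 := box_ncard n H (fun a : Ix n → ℤ => ∃ P : ℤ × ℤ, (T : ℤ) < msz P ∧
      Pool.Agent.H72.ES.ev n (arr a) P.1 P.2 = 0)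
    rw [e3, b3]
    exact h3.trans (mul_le_mul_of_nonneg_right (mul_le_mul_of_nonneg_right hCb (by positivity))
      (by positivity))

end Pool.Agent.Results.MP_821da1_nt.SharpCount
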