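import Mathlib
import Pool.Agent.H72.SQ.Main

/-!
# MP_cda23d_nt: elliptic curves with square discriminant
-/

set_option autoImplicit false

namespace Pool.Agent.H8.Old.SquareDiscriminant

open Pool.Agent.H27.SU

/-- **Theorem.** Let `E/ℚ` be an elliptic curve whose discriminant is a square, `j(E) ≠ 1728`, and let `p ≥ 29` be a
prime such that the image of `ρ_{E,p}` is contained in the normaliser of a nonsplit Cartan subgroup. Then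
`p = 3 mod 4`, and `j(E) = 1728 (c^{2p} + 12 w²) / c^{2p}` with coprime integers `w ≠ 0`, `c ≥ 1`, `c` prime to `6`,
such that `w` is divisible by `7 · 11 · 19 · 43 · 67 · 163`; every prime `r ∣ c` satisfies `r ≥ 2p - 1` and
`r = (-1)^{(r-1)/2} mod p`; every prime `r ∣ c^{2p} + 12 w²` is `1 mod 12`, or it is `7 mod 12`, its exponent is
divisible by `3` and `4 r > p²`; `p = 2 mod 3`, or `c ≠ 1` and `c^{2p} + 12 w²` is a cube; and `E` is not ordinary at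
any prime `q = 3 mod 4`, `q ≥ 5`, `4 q < p²`, `q ∤ c`. -/
theorem result (E : WeierstrassCurve ℚ) [E.IsElliptic] (hΔ : IsSquare E.Δ) (hj : E.j ≠ 1728)
    (p : ℕ) [Fact p.Prime] (hp : 29 ≤ p) (hE : InNonsplitNormaliser E p) :
    p % 4 = 3 ∧ ∃ (w : ℤ) (c N : ℕ), w ≠ 0 ∧ 0 < c ∧ IsCoprime w (c : ℤ) ∧ Nat.Coprime c 6 ∧
      N = c ^ (2 * p) + 12 * w.natAbs ^ 2 ∧ E.j = 1728 * N / (c : ℚ) ^ (2 * p) ∧
      (7 * 11 * 19 * 43 * 67 * 163 : ℤ) ∣ w ∧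
      (∀ r : ℕ, r.Prime → r ∣ c → 2 * p ≤ r + 1 ∧
        (p : ℤ) ∣ r - (if r % 4 = 1 then 1 else -1)) ∧
      (∀ r : ℕ, r.Prime → r ∣ N →
        r % 12 = 1 ∨ (r % 12 = 7 ∧ 3 ∣ padicValNat r N ∧ p ^ 2 < 4 * r)) ∧
      (p % 3 = 2 ∨ (c ≠ 1 ∧ ∃ y : ℕ, N = y ^ 3)) ∧
      (∀ (q : ℕ) [Fact q.Prime], 5 ≤ q → q % 4 = 3 → 4 * q < p ^ 2 → ¬ q ∣ c →
        ¬ OrdinaryAt E.j q) :=
  Pool.Agent.H72.SQ.square_disc E hΔ hj p hp hE

end Pool.Agent.H8.Old.SquareDiscriminant
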