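import Pool.Agent.H8.TM.MXX
import Pool.Agent.H4.JP.MXJ

/-!
# Siegel's theorem with one constant for all rational fibres of all one-parameter families

Let `d ≥ 3`, `m ≥ 1`, `1 ≤ j ≤ k`, `ρ = j / k`. There is an exponent `C` such that for every finite set
`L` of integer polynomials there is a constant `K` with the following property; for `L = ∅` one can take
`K = 1` and `C = 2^((3 m k d^2)!)`. Let `F ∈ ℤ[x,y]` be irreducible over `ℚ`, of total degree at most `d`,
with coefficients at most `H ≥ 2` in absolute value. Suppose that the residue field of every point at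
infinity of `F = 0` which has a real embedding contains a root of a member `G`, an irreducible polynomial
over `ℚ` of degree at least `3` of one of the following two kinds (`G` may depend on the point):

* `G ∈ L`, of degree at most `d`;
* `G` divides a fibre `f(a/w, Z)` over `ℚ`, where `f ∈ ℤ[t][Z]` is absolutely irreducible, of degree `n` in
  `Z`, `3 ≤ n ≤ d`, at most `m` in `t`, with coefficients at most `B` in absolute value, `B^C w ≤ a ≤ A`,
  `w ≤ a^(1 - ρ)`, and subordinate to `L` at `t = ∞`: for every irreducible factor `P` of `f(1/u, Z)`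
  over `ℚ((u))` which has a root in `ℝ((u^(1/e)))` for some `e ≥ 1`, either `2 deg P < ρ n` or
  `ℚ((u))[Z]/P` contains a root of an irreducible `q ∈ L` with `9 deg P < 2 ρ n deg q`.

Then all integer points satisfy `max(|x|,|y|) ≤ K (A H)^C`. For `ρ = 1` the fibres are those at
integers, and `deg q ≥ 5` is enough.
-/

namespace Pool.Agent.H8.Old.UniformSiegel

open Polynomial

/-- the fibre `f(a/w, Z)` -/
noncomputable def fiber (f : ℤ[X][X]) (a w : ℕ) : ℚ[X] :=
  f.map (eval₂RingHom (Int.castRingHom ℚ) ((a : ℚ) / w))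

/-- the family near `t = ∞`: `f(1/u, Z)`, a polynomial over the field `ℚ((u))` -/
noncomputable def atInfinity (f : ℤ[X][X]) : (LaurentSeries ℚ)[X] :=
  f.map (eval₂RingHom (Int.castRingHom (LaurentSeries ℚ)) (HahnSeries.single (-1) 1))

/-- `P` has a root in `ℝ((u^(1/e)))` for some `e ≥ 1`; `ψ` is the embedding of `ℚ((u))` in `ℝ((T))` with
`u ↦ T^e` -/
def HasRealRoot (P : (LaurentSeries ℚ)[X]) : Prop :=
  ∃ (e : ℕ) (ψ : LaurentSeries ℚ →+* LaurentSeries ℝ) (y : LaurentSeries ℝ), 1 ≤ e ∧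
    ψ (HahnSeries.single 1 1) = HahnSeries.single (e : ℤ) 1 ∧ (P.map ψ).eval y = 0

/-- `P` is a real factor of the family `f`, at `t = ∞` -/
def RealFactor (f : ℤ[X][X]) (P : (LaurentSeries ℚ)[X]) : Prop :=
  Irreducible P ∧ P ∣ atInfinity f ∧ HasRealRoot P

/-- the family `f` is subordinate to `L` at `t = ∞` -/
def Subordinate (j k : ℕ) (L : Finset ℤ[X]) (f : ℤ[X][X]) : Prop :=
  ∀ P, RealFactor f P → 2 * k * P.natDegree < j * f.natDegree ∨
    ∃ q ∈ L, Irreducible (q.map (Int.castRingHom ℚ)) ∧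
      (∃ φ : (LaurentSeries ℚ)[X], P ∣ (q.map (Int.castRingHom (LaurentSeries ℚ))).comp φ) ∧
      9 * k * P.natDegree < 2 * j * q.natDegree * f.natDegree

/-- `G` divides a fibre `f(a/w, Z)`, `B^C w ≤ a ≤ A`, `w^k ≤ a^(k - j)`, of a family which is subordinate
to `L` -/
def InFibre (C d m A j k : ℕ) (L : Finset ℤ[X]) (G : ℤ[X]) : Prop :=
  ∃ (f : ℤ[X][X]) (B a w : ℕ), G.map (Int.castRingHom ℚ) ∣ fiber f a w ∧
    3 ≤ f.natDegree ∧ f.natDegree ≤ d ∧ (∀ i, (f.coeff i).natDegree ≤ m) ∧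
    Irreducible (f.map (mapRingHom (Int.castRingHom ℂ))) ∧ Subordinate j k L f ∧
    (∀ i j, |(f.coeff i).coeff j| ≤ (B : ℤ)) ∧ 2 ≤ B ∧ 1 ≤ w ∧ B ^ C * w ≤ a ∧ a ≤ A ∧
    w ^ k ≤ a ^ (k - j)

/-- the members: irreducible polynomials of degree at least three which are in `L`, of degree at most `d`,
or factors of fibres of families subordinate to `L` -/
def Member (C d m A j k : ℕ) (L : Finset ℤ[X]) (G : ℤ[X]) : Prop :=
  Irreducible (G.map (Int.castRingHom ℚ)) ∧ 3 ≤ G.natDegree ∧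
    ((G ∈ L ∧ G.natDegree ≤ d) ∨ InFibre C d m A j k L G)

/-- all points at infinity of the curve `F = 0` with real residue field carry a root of a member of
`S`: for every number field `K` with a real embedding and all `X, Y` in `K((t))` with `F(X,Y) = 0`,
either `X, Y` are in `K[[t]]` or `K` contains a root of a member of `S` -/
def Carries (S : Set ℤ[X]) (F : MvPolynomial (Fin 2) ℤ) : Prop :=
  ∀ (K : Type) [Field K] [NumberField K], Nonempty (K →+* ℝ) → ∀ X Y : LaurentSeries K,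
    MvPolynomial.eval₂ (Int.castRingHom (LaurentSeries K)) ![X, Y] F = 0 →
    (X ∈ (HahnSeries.ofPowerSeries ℤ K).range ∧ Y ∈ (HahnSeries.ofPowerSeries ℤ K).range) ∨
      ∃ g ∈ S, ∃ θ : K, aeval θ g = 0

/-- the bound `K (A H)^C` for the integer points of all curves which carry members -/
def Bounded (d m j k C : ℕ) (L : Finset ℤ[X]) (K : ℕ) : Prop :=
  ∀ (F : MvPolynomial (Fin 2) ℤ) (A H : ℕ), 1 ≤ A → 2 ≤ H →
    Irreducible (MvPolynomial.map (Int.castRingHom ℚ) F) → F.totalDegree ≤ d →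
    Carries {G | Member C d m A j k L G} F → (∀ e, |F.coeff e| ≤ (H : ℤ)) →
    ∀ x y : ℤ, MvPolynomial.eval ![x, y] F = 0 → max |x| |y| ≤ ((K * (A * H) ^ C : ℕ) : ℤ)

private theorem vl_eq {F : MvPolynomial (Fin 2) ℤ} {x y : ℤ}
    (h : MvPolynomial.eval ![x, y] F = 0) : Pool.Agent.H34.AC.vl F x y = 0 := by
  unfold Pool.Agent.H34.AC.vl
  rw [← h, MvPolynomial.eval, MvPolynomial.coe_eval₂Hom]
  congr 1

private theorem log_ge {a w j k : ℕ} (ha : 1 ≤ a) (hw : 1 ≤ w) (hj : 1 ≤ j) (hjk : j ≤ k)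
    (h : w ^ k ≤ a ^ (k - j)) :
    ((j : ℝ) / k) * Real.log a ≤ Real.log ((a : ℝ) / w) := by
  have har : (0 : ℝ) < a := by exact_mod_cast ha
  have hwr : (0 : ℝ) < w := by exact_mod_cast hw
  have hkr : (0 : ℝ) < k := by exact_mod_cast hj.trans hjk
  have h1 : (w : ℝ) ^ k ≤ (a : ℝ) ^ (k - j) := by exact_mod_cast h
  have h2 := Real.log_le_log (pow_pos hwr k) h1
  rw [Real.log_pow, Real.log_pow, Nat.cast_sub hjk] at h2
  rw [Real.log_div har.ne' hwr.ne', div_mul_eq_mul_div, div_le_iff₀ hkr]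
  linarith

/-- **Uniform Siegel theorem.** -/
theorem result (d m j k : ℕ) (hd : 3 ≤ d) (hm : 1 ≤ m) (hj : 1 ≤ j) (hjk : j ≤ k) :
    Bounded d m j k (2 ^ (3 * m * k * d ^ 2).factorial) ∅ 1 ∧
      ∃ C : ℕ, 2 ≤ C ∧ ∀ L : Finset ℤ[X], ∃ K : ℕ, Bounded d m j k C L K := by
  classical
  have hkr : (0 : ℝ) < k := by exact_mod_cast hj.trans hjk
  have hjr : (0 : ℝ) < j := by exact_mod_cast hj
  refine ⟨?_, ?_⟩
  · intro F A H hA hH hF hFd hcar hFH x y hxy
    obtain ⟨C, hC⟩ : ∃ C, C = Pool.Agent.H37.XP.CE d m k := ⟨_, rfl⟩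
    have hC' : 2 ^ (3 * m * k * d ^ 2).factorial = C := by
      rw [hC]
      unfold Pool.Agent.H37.XP.CE
      congr 2
      ring
    rw [hC'] at hcar ⊢
    have h7 := Pool.Agent.H8.TM.mixX d m j k hd hm hj hjk A hA F hF hFd ?_ H hH hFH x y (vl_eq hxy)
    · rw [← hC] at h7
      rw [Int.abs_eq_natAbs, Int.abs_eq_natAbs, one_mul]
      exact_mod_cast h7
    · rw [← hC]
      intro Kf _ _ hR X' Y' hXY
      rcases hcar Kf hR X' Y' hXY with h2 | ⟨G, ⟨hirr, hG3, hG⟩, θ, hθ⟩
      · exact Or.inl h2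
      · refine Or.inr ⟨G, ?_, θ, hθ⟩
        rcases hG with ⟨hGL, -⟩ | ⟨f, B, a, w, hfa, h3, h4, h5, h6, hS, h8, h9, hw, h10, h11, h12⟩
        · exact absurd hGL (Finset.notMem_empty G)
        · refine ⟨hirr, hG3, f, B, a, w, h3, h4, h5, h6, ?_, h8, h9, hw, h10, h11,
            log_ge (Pool.Agent.H8.TM.one_le_aw h9 hw h10) hw hj hjk h12, hfa⟩
          intro P hP1 hP2 hP3
          rcases hS P ⟨hP1, hP2, hP3⟩ with h13 | ⟨q, hq, -⟩
          · exact h13
          · exact absurd hq (Finset.notMem_empty q)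
  · obtain ⟨C, hC, h⟩ := Pool.Agent.H4.JP.mixJ d m hd hm ((j : ℝ) / k) (by positivity) (by
      rw [div_le_one hkr]
      exact_mod_cast hjk)
    refine ⟨C, hC, fun L => ?_⟩
    obtain ⟨K, -, h1⟩ := h (L.image fun q => q.map (Int.castRingHom ℚ)) L
    refine ⟨K, fun F A H hA hH hF hFd hcar hFH x y hxy => ?_⟩
    have h7 := h1 A hA F hF hFd ?_ H hH hFH x y (vl_eq hxy)
    · rw [Int.abs_eq_natAbs, Int.abs_eq_natAbs]
      exact_mod_cast h7
    · intro Kf _ _ hR X' Y' hXY
      rcases hcar Kf hR X' Y' hXY with h2 | ⟨G, ⟨hirr, hG3, hG⟩, θ, hθ⟩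
      · exact Or.inl h2
      · refine Or.inr ⟨G, ?_, θ, hθ⟩
        rcases hG with ⟨hGL, hGd⟩ | ⟨f, B, a, w, hfa, h3, h4, h5, h6, hS, h8, h9, hw, h10, h11,
          h12⟩
        · exact Or.inl ⟨hGL, hG3, hGd, hirr⟩
        · refine Or.inr ⟨hirr, hG3, f, B, a, w, h3, h4, h5, h6, ?_, h8, h9, hw, h10, h11,
            log_ge (Pool.Agent.H8.TM.one_le_aw h9 hw h10) hw hj hjk h12, hfa⟩
          intro P hP1 hP2 hP3
          rcases hS P ⟨hP1, hP2, hP3⟩ with h13 | ⟨q, hq, hqi, ⟨φ, hφ⟩, hnum⟩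
          · left
            rw [div_mul_eq_mul_div, lt_div_iff₀ hkr]
            have h14 : (2 * k * P.natDegree : ℝ) < j * f.natDegree := by exact_mod_cast h13
            linarith
          · refine Or.inr ⟨q.map (Int.castRingHom ℚ), Finset.mem_image_of_mem _ hq, hqi,
              ⟨φ, ?_⟩, ?_⟩
            · rw [Polynomial.map_map]
              have e1 : (algebraMap ℚ (LaurentSeries ℚ)).comp (Int.castRingHom ℚ) =
                  Int.castRingHom (LaurentSeries ℚ) := RingHom.ext_int _ _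
              rw [e1]
              exact hφ
            · rw [natDegree_map_eq_of_injective (RingHom.injective_int _)]
              unfold Pool.Agent.H4.JP.NumJ
              have h14 : (9 * k * P.natDegree : ℝ) < 2 * j * q.natDegree * f.natDegree := by
                exact_mod_cast hnum
              have h15 : 2 * ((j : ℝ) / k) * (q.natDegree * f.natDegree) =
                  2 * j * q.natDegree * f.natDegree / k := by ring
              rw [h15, lt_div_iff₀ hkr]
              linarith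

end Pool.Agent.H8.Old.UniformSiegel
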